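import Mathlib

/-!
# Cohen forcings for strong Fraisse classes need not be forcing equivalent

Let `L` be the countable language with the unary relation symbols `U_n` (`n` a natural number) and
let `T` be a set of sets of natural numbers. The finite `L`-structures all of whose points have
their type `{n | U_n}` in `T` form a strong Fraisse class `K_T`, and `Cohen_X(K_T)` is the forcing
with finite functions from `X` to `T`. If `T` has two elements it satisfies the countable chain
condition, if `T` is uncountable it does not.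
-/

open FirstOrder CategoryTheory Cardinal MeasureTheory

namespace Pool.Agent.Results.MP_01c350_lc.NotEquivalent

/-- `K` is a strong Fraisse class of `L`-structures: its members are finite, it is closed under
isomorphism and under substructures, it has the joint embedding property and it has the strong
(disjoint) amalgamation property. -/
structure IsStrongFraisse (L : FirstOrder.Language.{0, 0}) (K : Set (Bundled.{0} L.Structure)) : Prop where
  finite : ∀ A ∈ K, Finite A
  iso : ∀ A B : Bundled.{0} L.Structure, A ∈ K → Nonempty (A ≃[L] B) → B ∈ K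
  sub : ∀ A B : Bundled.{0} L.Structure, B ∈ K → Nonempty (A ↪[L] B) → A ∈ K
  jep : ∀ A B : Bundled.{0} L.Structure, A ∈ K → B ∈ K →
    ∃ C ∈ K, Nonempty (A ↪[L] C) ∧ Nonempty (B ↪[L] C)
  sap : ∀ (A B C : Bundled.{0} L.Structure) (f : A ↪[L] B) (g : A ↪[L] C), A ∈ K → B ∈ K → C ∈ K →
    ∃ D ∈ K, ∃ (f' : B ↪[L] D) (g' : C ↪[L] D), (∀ a, f' (f a) = g' (g a)) ∧
      Set.range f' ∩ Set.range g' = Set.range (fun a => f' (f a))

/-- `ψ` is a literal: an atomic formula or the negation of one. -/
def IsLiteral {L : FirstOrder.Language.{0, 0}} {n : ℕ} (ψ : L.Formula (Fin n)) : Prop :=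
  ψ.IsAtomic ∨ ∃ φ : L.Formula (Fin n), φ.IsAtomic ∧ ψ = φ.not

/-- `K` is trivial: for every literal `ψ` in the variables `x_0, …, x_{n-1}`, either all members of
`K` satisfy `ψ` on all tuples with pairwise distinct entries, or all of them satisfy its negation on
all such tuples. -/
def IsTrivial (L : FirstOrder.Language.{0, 0}) (K : Set (Bundled.{0} L.Structure)) : Prop :=
  ∀ (n : ℕ) (ψ : L.Formula (Fin n)), IsLiteral ψ →
    (∀ A ∈ K, ∀ v : Fin n → A, Function.Injective v → ψ.Realize v) ∨
    (∀ A ∈ K, ∀ v : Fin n → A, Function.Injective v → ¬ ψ.Realize v)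

/-- `K` has at most `|X|` isomorphism types. -/
def AtMostTypes (L : FirstOrder.Language.{0, 0}) (K : Set (Bundled.{0} L.Structure)) (X : Type) : Prop :=
  #(Quotient.mk' '' K : Set (Quotient (FirstOrder.Language.equivSetoid (L := L)))) ≤ lift.{1} #X

/-- The conditions of `Cohen_X(K)`: the structures in `K` whose underlying set is a finite subset
of `X`. -/
structure Cohen (L : FirstOrder.Language.{0, 0}) (K : Set (Bundled.{0} L.Structure)) (X : Type) where
  dom : Finset X
  str : L.Structure dom
  mem : (⟨dom, str⟩ : Bundled.{0} L.Structure) ∈ K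

/-- `q` is a substructure of `p`. -/
def IsSub {L : FirstOrder.Language.{0, 0}} {K : Set (Bundled.{0} L.Structure)} {X : Type}
    (q p : Cohen L K X) : Prop :=
  ∃ h : q.dom ⊆ p.dom, ∀ (n : ℕ) (R : L.Relations n) (v : Fin n → q.dom),
    p.str.RelMap R (fun i => ⟨(v i).1, h (v i).2⟩) ↔ q.str.RelMap R v

/-- The condition `p` is stronger than (below) `q` if `q` is a substructure of `p`. -/
instance {L : FirstOrder.Language.{0, 0}} {K : Set (Bundled.{0} L.Structure)} {X : Type} :
    Preorder (Cohen L K X) where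
  le p q := IsSub q p
  le_refl p := ⟨fun _ h => h, fun _ _ _ => Iff.rfl⟩
  le_trans p q r hpq hqr := by
    obtain ⟨h1, h1'⟩ := hpq
    obtain ⟨h2, h2'⟩ := hqr
    refine ⟨fun _ h => h1 (h2 h), fun n R v => ?_⟩
    rw [← h2' n R v, ← h1' n R]

/-- The Boolean completion `RO(P)` of a forcing notion `P`: the regular open subsets of `P`, ordered
by inclusion. A set is open if it is closed downwards, and an open set `A` is regular if it contains
every `p` such that `A` is dense below `p`. -/
def RO (P : Type) [Preorder P] : Type :=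
  {A : Set P // (∀ p ∈ A, ∀ q, q ≤ p → q ∈ A) ∧ ∀ p, (∀ q, q ≤ p → ∃ r, r ≤ q ∧ r ∈ A) → p ∈ A}

instance (P : Type) [Preorder P] : PartialOrder (RO P) :=
  inferInstanceAs (PartialOrder {A : Set P //
    (∀ p ∈ A, ∀ q, q ≤ p → q ∈ A) ∧ ∀ p, (∀ q, q ≤ p → ∃ r, r ≤ q ∧ r ∈ A) → p ∈ A})

/-- Two forcing notions are forcing equivalent if their Boolean completions are isomorphic. -/
def ForcingEquivalent (P Q : Type) [Preorder P] [Preorder Q] : Prop :=
  Nonempty (RO P ≃o RO Q)

/-! ### The language -/

/-- Unary relation symbols `U_n`. -/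
inductive Sym : ℕ → Type
  | U (i : ℕ) : Sym 1

/-- The language with the unary relation symbols `U_n`. -/
def LU : FirstOrder.Language.{0, 0} := ⟨fun _ => Empty, Sym⟩

instance : LU.IsRelational := fun _ => inferInstanceAs (IsEmpty Empty)

/-- The type of a point. -/
def typ {A : Type} (S : LU.Structure A) (a : A) : Set ℕ :=
  {i | S.RelMap (Sym.U i : LU.Relations 1) (fun _ => a)}

/-- The structure with given types. -/
@[instance_reducible]
def mk {A : Type} (τ : A → Set ℕ) : LU.Structure A where
  funMap := fun f => f.elim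
  RelMap := fun {n} (R : Sym n) => match n, R with
    | _, Sym.U i => fun v => i ∈ τ (v 0)

lemma typ_mk {A : Type} (τ : A → Set ℕ) : typ (mk τ) = τ := rfl

lemma relMap_iff {A : Type} (S : LU.Structure A) (i : ℕ) (v : Fin 1 → A) :
    S.RelMap (Sym.U i : LU.Relations 1) v ↔ i ∈ typ S (v 0) := by
  have : v = fun _ => v 0 := by
    funext j
    rw [Subsingleton.elim j 0]
  show _ ↔ S.RelMap (Sym.U i : LU.Relations 1) (fun _ => v 0)
  rw [← this]

/-- An injective map that preserves types is an embedding. -/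
def emb {A B : Type} [S : LU.Structure A] [S' : LU.Structure B] (f : A → B)
    (hf : Function.Injective f) (h : ∀ a, typ S' (f a) = typ S a) : A ↪[LU] B where
  toFun := f
  inj' := hf
  map_fun' := fun g => g.elim
  map_rel' := fun {n} (R : Sym n) => match n, R with
    | _, Sym.U i => fun v => by
      rw [relMap_iff, relMap_iff]
      show i ∈ typ S' (f (v 0)) ↔ _
      rw [h]

lemma typ_emb {A B : Type} [S : LU.Structure A] [S' : LU.Structure B] (f : A ↪[LU] B) (a : A) :
    typ S' (f a) = typ S a := by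
  ext i
  exact f.map_rel (Sym.U i : LU.Relations 1) (fun _ => a)

/-- A bijective map that preserves types is an isomorphism. -/
def eqv {A B : Type} [S : LU.Structure A] [S' : LU.Structure B] (f : A ≃ B)
    (h : ∀ a, typ S' (f a) = typ S a) : A ≃[LU] B where
  toEquiv := f
  map_fun' := fun g => g.elim
  map_rel' := fun {n} (R : Sym n) => match n, R with
    | _, Sym.U i => fun v => by
      rw [relMap_iff, relMap_iff]
      show i ∈ typ S' (f (v 0)) ↔ _
      rw [h]

/-- The finite structures all of whose points have their type in `T`. -/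
def KT (T : Set (Set ℕ)) : Set (Bundled.{0} LU.Structure) :=
  {A | Finite A ∧ ∀ a : A, typ A.str a ∈ T}

lemma isStrongFraisse (T : Set (Set ℕ)) : IsStrongFraisse LU (KT T) where
  finite := fun A hA => hA.1
  iso := by
    rintro A B ⟨hA, hA'⟩ ⟨e⟩
    refine ⟨Finite.of_equiv A e.toEquiv, fun b => ?_⟩
    have h : typ A.str (e.symm b) = typ B.str b := typ_emb e.symm.toEmbedding b
    rw [← h]
    exact hA' _
  sub := by
    rintro A B ⟨hB, hB'⟩ ⟨e⟩
    refine ⟨Finite.of_injective e e.injective, fun a => ?_⟩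
    have h : typ B.str (e a) = typ A.str a := typ_emb e a
    rw [← h]
    exact hB' _
  jep := by
    rintro A B ⟨hA, hA'⟩ ⟨hB, hB'⟩
    let S : LU.Structure (A ⊕ B) := mk (Sum.elim (typ A.str) (typ B.str))
    refine ⟨⟨A ⊕ B, S⟩, ⟨inferInstanceAs (Finite (A ⊕ B)), ?_⟩, ⟨?_⟩, ⟨?_⟩⟩
    · rintro (a | b)
      · exact hA' a
      · exact hB' b
    · exact emb (Sum.inl : A → A ⊕ B) Sum.inl_injective (fun a => rfl)
    · exact emb (Sum.inr : B → A ⊕ B) Sum.inr_injective (fun a => rfl)
  sap := by
    classical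
    rintro A B C f g ⟨hA, hA'⟩ ⟨hB, hB'⟩ ⟨hC, hC'⟩
    let C' := {c : C // c ∉ Set.range g}
    let S : LU.Structure (B ⊕ C') := mk (Sum.elim (typ B.str) (fun c => typ C.str c.1))
    let G : C → B ⊕ C' := fun c =>
      if h : c ∈ Set.range g then Sum.inl (f h.choose) else Sum.inr ⟨c, h⟩
    have hG : ∀ a, G (g a) = Sum.inl (f a) := by
      intro a
      have h : g a ∈ Set.range g := ⟨a, rfl⟩
      simp only [G]
      rw [dif_pos h, g.injective h.choose_spec]
    have hG' : ∀ c (h : c ∉ Set.range g), G c = Sum.inr ⟨c, h⟩ := by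
      intro c h
      simp only [G]
      rw [dif_neg h]
    have hGi : Function.Injective G := by
      intro c d hcd
      by_cases hc : c ∈ Set.range g <;> by_cases hd : d ∈ Set.range g
      · obtain ⟨a, rfl⟩ := hc
        obtain ⟨b, rfl⟩ := hd
        rw [hG, hG] at hcd
        rw [f.injective (Sum.inl_injective hcd)]
      · obtain ⟨a, rfl⟩ := hc
        rw [hG, hG' d hd] at hcd
        cases hcd
      · obtain ⟨b, rfl⟩ := hd
        rw [hG, hG' c hc] at hcd
        cases hcd
      · rw [hG' c hc, hG' d hd] at hcd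
        exact congrArg Subtype.val (Sum.inr_injective hcd)
    refine ⟨⟨B ⊕ C', S⟩, ⟨inferInstanceAs (Finite (B ⊕ C')), ?_⟩,
      emb (Sum.inl : B → B ⊕ C') Sum.inl_injective (fun a => rfl), emb G hGi ?_, ?_, ?_⟩
    · rintro (b | c)
      · exact hB' b
      · exact hC' c.1
    · intro c
      by_cases hc : c ∈ Set.range g
      · obtain ⟨a, rfl⟩ := hc
        rw [hG, typ_emb g a, ← typ_emb f a]
        rfl
      · rw [hG' c hc]
        rfl
    · intro a
      exact (hG a).symm
    · ext x
      constructor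
      · rintro ⟨⟨b, rfl⟩, ⟨c, hc⟩⟩
        by_cases hc' : c ∈ Set.range g
        · obtain ⟨a, rfl⟩ := hc'
          refine ⟨a, ?_⟩
          rw [← hc]
          exact (hG a).symm
        · have h1 : G c = Sum.inl b := hc
          rw [hG' c hc'] at h1
          cases h1
      · rintro ⟨a, rfl⟩
        exact ⟨⟨f a, rfl⟩, ⟨g a, hG a⟩⟩

lemma not_isTrivial {T : Set (Set ℕ)} {s t : Set ℕ} (hs : s ∈ T) (ht : t ∈ T) (i : ℕ) (his : i ∈ s)
    (hit : i ∉ t) : ¬ IsTrivial LU (KT T) := by
  intro h
  let ψ : LU.Formula (Fin 1) :=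
    FirstOrder.Language.Relations.formula₁ (Sym.U i : LU.Relations 1) (FirstOrder.Language.var 0)
  have hψ : ∀ (A : Type) (S : LU.Structure A) (v : Fin 1 → A), ψ.Realize v ↔ i ∈ typ S (v 0) := by
    intro A S v
    refine (FirstOrder.Language.Formula.realize_rel₁ (L := LU) (M := A) (v := v)
      (R := (Sym.U i : LU.Relations 1)) (t := FirstOrder.Language.var 0)).trans ?_
    exact relMap_iff S i _
  let s1 : Bundled.{0} LU.Structure := ⟨Unit, mk (fun _ => s)⟩
  let t1 : Bundled.{0} LU.Structure := ⟨Unit, mk (fun _ => t)⟩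
  have hs1 : s1 ∈ KT T := ⟨inferInstanceAs (Finite Unit), fun _ => hs⟩
  have ht1 : t1 ∈ KT T := ⟨inferInstanceAs (Finite Unit), fun _ => ht⟩
  have hinj : Function.Injective (fun _ : Fin 1 => ()) := fun a b _ => Subsingleton.elim a b
  rcases h 1 ψ (Or.inl (FirstOrder.Language.BoundedFormula.IsAtomic.rel _ _)) with h | h
  · exact hit ((hψ Unit t1.str _).mp (h t1 ht1 (fun _ => ()) hinj))
  · exact h s1 hs1 (fun _ => ()) hinj ((hψ Unit s1.str _).mpr his)

lemma atMostTypes {T : Set (Set ℕ)} {X : Type} [Infinite X] (c : X → Set ℕ) (hc : T ⊆ Set.range c) :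
    AtMostTypes LU (KT T) X := by
  classical
  unfold AtMostTypes
  let S : List X → Bundled.{0} LU.Structure := fun l => ⟨Fin l.length, mk (fun j => c (l.get j))⟩
  have key : ∀ y : (Quotient.mk' '' KT T : Set (Quotient (FirstOrder.Language.equivSetoid (L := LU)))),
      ∃ l : List X, Quotient.mk' (S l) = y.1 := by
    rintro ⟨_, A, ⟨hA, hA'⟩, rfl⟩
    obtain ⟨n, ⟨e⟩⟩ := Finite.exists_equiv_fin A
    choose d hd using fun a => hc (hA' a)
    refine ⟨List.ofFn (fun j => d (e.symm j)), ?_⟩
    apply Quotient.sound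
    have hlen : (List.ofFn (fun j => d (e.symm j))).length = n := List.length_ofFn
    refine ⟨@eqv _ _ (S _).str A.str ((finCongr hlen).trans e.symm) fun j => ?_⟩
    show typ A.str (e.symm (Fin.cast hlen j)) = c ((List.ofFn (fun j => d (e.symm j))).get j)
    rw [List.get_ofFn, ← hd]
  choose l hl using key
  have hinj : Function.Injective l := by
    intro y z h
    apply Subtype.ext
    rw [← hl y, ← hl z, h]
  have h1 := Cardinal.lift_mk_le_lift_mk_of_injective hinj
  rw [Cardinal.mk_list_eq_mk] at h1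
  simpa using h1

/-! ### Boolean completions and antichains -/

section RO

variable {P Q : Type} [Preorder P] [Preorder Q]

/-- The empty regular open set. -/
def bot : RO P := ⟨∅, by simp, fun p h => by
  obtain ⟨r, -, hr⟩ := h p le_rfl
  exact hr⟩

/-- The regular open set generated by a condition. -/
def gen (p : P) : RO P := ⟨{q | ∀ r, r ≤ q → ∃ s, s ≤ r ∧ s ≤ p},
  fun q hq q' hq' r hr => hq r (hr.trans hq'),
  fun q hq r hr => by
    obtain ⟨s, hs, hs'⟩ := hq r hr
    obtain ⟨t, ht, ht'⟩ := hs' s le_rfl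
    exact ⟨t, ht.trans hs, ht'⟩⟩

lemma self_mem_gen (p : P) : p ∈ (gen p).1 := fun r hr => ⟨r, le_rfl, hr⟩

lemma gen_le {p : P} {A : RO P} (h : p ∈ A.1) : gen p ≤ A := by
  intro q hq
  apply A.2.2
  intro r hr
  obtain ⟨s, hs, hs'⟩ := hq r hr
  exact ⟨s, hs, A.2.1 p h s hs'⟩

lemma bot_le' (A : RO P) : bot ≤ A := fun _ h => h.elim

lemma eq_bot_of_empty {A : RO P} (h : A.1 = ∅) : A = bot := Subtype.ext h

/-- Pairwise incompatible conditions of `P` give pairwise incompatible conditions of `Q`. -/
lemma transfer (e : RO P ≃o RO Q) {I : Type} (p : I → P)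
    (hp : ∀ i j, i ≠ j → ∀ r, r ≤ p i → ¬ r ≤ p j) :
    ∃ q : I → Q, ∀ i j, i ≠ j → ∀ r, r ≤ q i → ¬ r ≤ q j := by
  have hbot : ∀ A : RO P, A ≤ bot → A.1 = ∅ := fun A h => Set.subset_empty_iff.mp h
  have hbotQ : ∀ A : RO Q, A ≤ bot → A.1 = ∅ := fun A h => Set.subset_empty_iff.mp h
  have h1 : ∀ i, (e (gen (p i))).1.Nonempty := by
    intro i
    by_contra h
    rw [Set.not_nonempty_iff_eq_empty] at h
    have h2 : e (gen (p i)) ≤ e bot := by
      rw [eq_bot_of_empty h]
      exact bot_le' _
    have h3 := hbot _ (e.le_iff_le.mp h2)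
    have h4 := self_mem_gen (p i)
    rw [h3] at h4
    exact h4
  choose q hq using h1
  refine ⟨q, fun i j hij r hri hrj => ?_⟩
  have h2 : gen r ≤ e (gen (p i)) := gen_le ((e (gen (p i))).2.1 _ (hq i) r hri)
  have h3 : gen r ≤ e (gen (p j)) := gen_le ((e (gen (p j))).2.1 _ (hq j) r hrj)
  have h4 : e.symm (gen r) ≤ gen (p i) := by rwa [OrderIso.symm_apply_le]
  have h5 : e.symm (gen r) ≤ gen (p j) := by rwa [OrderIso.symm_apply_le]
  have h6 : (e.symm (gen r)).1 = ∅ := by
    rw [Set.eq_empty_iff_forall_notMem]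
    intro x hx
    obtain ⟨s, hs, hs'⟩ := h4 hx x le_rfl
    obtain ⟨t, ht, ht'⟩ := h5 hx s hs
    exact hp i j hij t (ht.trans hs') ht'
  have h7 : e.symm (gen r) ≤ e.symm bot := by
    rw [eq_bot_of_empty h6]
    exact bot_le' _
  have h8 := hbotQ _ (e.symm.le_iff_le.mp h7)
  have h9 := self_mem_gen r
  rw [h8] at h9
  exact h9

end RO

/-! ### The two forcing notions -/

lemma isSub_iff {T : Set (Set ℕ)} {X : Type} (q p : Cohen LU (KT T) X) :
    IsSub q p ↔ ∃ h : q.dom ⊆ p.dom, ∀ x : q.dom, typ p.str ⟨x.1, h x.2⟩ = typ q.str x := by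
  constructor
  · rintro ⟨h, h'⟩
    refine ⟨h, fun x => ?_⟩
    ext i
    exact h' 1 (Sym.U i : LU.Relations 1) (fun _ => x)
  · rintro ⟨h, h'⟩
    refine ⟨h, fun n (R : Sym n) => ?_⟩
    match n, R with
    | _, Sym.U i =>
      intro v
      rw [relMap_iff, relMap_iff, h' (v 0)]

/-- A large antichain. -/
lemma antichain {T : Set (Set ℕ)} {X : Type} (x : X) {I : Type} (c : I → Set ℕ)
    (hc : Function.Injective c) (hcT : ∀ i, c i ∈ T) :
    ∃ p : I → Cohen LU (KT T) X, ∀ i j, i ≠ j → ∀ r, r ≤ p i → ¬ r ≤ p j := by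
  let p : I → Cohen LU (KT T) X := fun i =>
    ⟨{x}, mk (fun _ => c i), inferInstanceAs (Finite ({x} : Finset X)), fun _ => hcT i⟩
  refine ⟨p, fun i j hij r hri hrj => hij ?_⟩
  obtain ⟨h1, h1'⟩ := (isSub_iff _ _).mp hri
  obtain ⟨h2, h2'⟩ := (isSub_iff _ _).mp hrj
  have hx : x ∈ ({x} : Finset X) := Finset.mem_singleton_self x
  apply hc
  have e1 := h1' ⟨x, hx⟩
  have e2 := h2' ⟨x, hx⟩
  exact e1.symm.trans e2

/-- Finite functions into a set with two elements: the countable chain condition. -/
lemma ccc {X : Type} {I : Type} (p : I → Cohen LU (KT {∅, {0}}) X)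
    (hp : ∀ i j, i ≠ j → ∀ r, r ≤ p i → ¬ r ≤ p j) : Countable I := by
  classical
  let μ0 : Measure Bool := (PMF.uniformOfFintype Bool).toMeasure
  let μ : Measure (X → Bool) := Measure.infinitePi (fun _ => μ0)
  let b : ∀ i, X → Bool := fun i x =>
    if h : x ∈ (p i).dom then decide (0 ∈ typ (p i).str ⟨x, h⟩) else true
  let E : I → Set (X → Bool) := fun i => Set.pi ((p i).dom : Set X) (fun x => {b i x})
  have hE : ∀ i, 0 < μ (E i) := by
    intro i
    rw [Measure.infinitePi_pi]
    · rw [pos_iff_ne_zero, Finset.prod_ne_zero_iff]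
      intro x _
      rw [PMF.toMeasure_apply_singleton _ _ (MeasurableSet.singleton _)]
      simp
    · intro x _
      exact MeasurableSet.singleton _
  have hEm : ∀ i, MeasurableSet (E i) := by
    intro i
    apply MeasurableSet.pi (Finset.countable_toSet _)
    intro x _
    exact MeasurableSet.singleton _
  have hd : Pairwise (Function.onFun Disjoint E) := by
    intro i j hij
    rw [Function.onFun, Set.disjoint_left]
    intro h hi hj
    have hmem : ∀ x, (if h x = true then ({0} : Set ℕ) else ∅) ∈ ({∅, {0}} : Set (Set ℕ)) := by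
      intro x
      split_ifs <;> simp
    let r : Cohen LU (KT {∅, {0}}) X :=
      ⟨(p i).dom ∪ (p j).dom, mk (fun x => if h x.1 = true then {0} else ∅),
        inferInstanceAs (Finite ((p i).dom ∪ (p j).dom : Finset X)), fun x => hmem x.1⟩
    have hval : ∀ k, h ∈ E k → ∀ x : (p k).dom,
        (if h x.1 = true then ({0} : Set ℕ) else ∅) = typ (p k).str x := by
      intro k hk x
      have h1 : h x.1 = b k x.1 := hk x.1 x.2
      have h2 : b k x.1 = decide (0 ∈ typ (p k).str x) := by
        simp only [b]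
        rw [dif_pos x.2]
      rw [h1, h2]
      rcases (p k).mem.2 x with h3 | h3
      · have h3' : typ (p k).str x = ∅ := h3
        rw [h3']
        simp
      · have h3' : typ (p k).str x = {0} := h3
        rw [h3']
        simp
    refine hp i j hij r ((isSub_iff _ _).mpr ⟨Finset.subset_union_left, fun x => ?_⟩)
      ((isSub_iff _ _).mpr ⟨Finset.subset_union_right, fun x => ?_⟩)
    · exact hval i hi x
    · exact hval j hj x
  have := Measure.countable_meas_pos_of_disjoint_iUnion (μ := μ) hEm hd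
  rw [Set.countable_iff_exists_injective] at this
  obtain ⟨f, hf⟩ := this
  exact ⟨fun i => f ⟨i, hE i⟩, fun i j hij => congrArg Subtype.val (hf hij)⟩

/-- **Cohen forcings for strong Fraisse classes need not be equivalent**: for every uncountable set
`X` there are, in a countable relational language, two non-trivial strong Fraisse classes with at
most `|X|` isomorphism types whose Cohen forcings are not forcing equivalent. -/
theorem result (X : Type) [Uncountable X] :
    ∃ (L : FirstOrder.Language.{0, 0}) (_ : L.IsRelational) (_ : Countable (Σ n, L.Relations n))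
      (K₀ K₁ : Set (Bundled.{0} L.Structure)),
      IsStrongFraisse L K₀ ∧ ¬ IsTrivial L K₀ ∧ AtMostTypes L K₀ X ∧
      IsStrongFraisse L K₁ ∧ ¬ IsTrivial L K₁ ∧ AtMostTypes L K₁ X ∧
      ¬ ForcingEquivalent (Cohen L K₀ X) (Cohen L K₁ X) := by
  classical
  obtain ⟨x0⟩ : Nonempty X := inferInstance
  -- an uncountable set of at most `|X|` subsets of the natural numbers
  obtain ⟨I, hI, ⟨f⟩, ⟨g⟩⟩ : ∃ I : Type, Uncountable I ∧ Nonempty (I ↪ X) ∧
      Nonempty (I ↪ Set ℕ) := by
    refine ⟨(Cardinal.aleph 1).out, ?_, ?_, ?_⟩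
    · rw [← Cardinal.aleph0_lt_mk_iff, Cardinal.mk_out]
      exact Cardinal.aleph0_lt_aleph_one
    · rw [← Cardinal.le_def, Cardinal.mk_out, ← Cardinal.succ_aleph0, Order.succ_le_iff]
      exact Cardinal.aleph0_lt_mk
    · rw [← Cardinal.le_def, Cardinal.mk_out, Cardinal.mk_set, Cardinal.mk_nat]
      exact Cardinal.aleph_one_le_continuum
  refine ⟨LU, inferInstance, ?_, KT (Set.range g), KT {∅, {0}}, isStrongFraisse _, ?_, ?_,
    isStrongFraisse _, ?_, ?_, ?_⟩
  · have hs : Function.Surjective (fun i : ℕ => (⟨1, Sym.U i⟩ : Σ n, Sym n)) := by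
      rintro ⟨n, R⟩
      cases R with
      | U i => exact ⟨i, rfl⟩
    exact hs.countable
  · obtain ⟨i, j, hij⟩ := exists_pair_ne I
    have hne : g i ≠ g j := fun h => hij (g.injective h)
    have h1 : ∃ n, ¬ (n ∈ g i ↔ n ∈ g j) := by
      by_contra hc
      push Not at hc
      exact hne (Set.ext hc)
    obtain ⟨n, hn⟩ := h1
    by_cases h2 : n ∈ g i
    · exact not_isTrivial ⟨i, rfl⟩ ⟨j, rfl⟩ n h2 (fun h3 => hn ⟨fun _ => h3, fun _ => h2⟩)
    · have h3 : n ∈ g j := by
        by_contra h3
        exact hn ⟨fun h => absurd h h2, fun h => absurd h h3⟩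
      exact not_isTrivial ⟨j, rfl⟩ ⟨i, rfl⟩ n h3 h2
  · apply atMostTypes (Function.extend f g (fun _ => ∅))
    rintro _ ⟨i, rfl⟩
    exact ⟨f i, f.injective.extend_apply _ _ _⟩
  · exact not_isTrivial (s := {0}) (t := ∅) (by simp) (by simp) 0 (by simp) (by simp)
  · obtain ⟨x1, hx1⟩ := exists_ne x0
    apply atMostTypes (fun x => if x = x0 then {0} else ∅)
    rintro t (rfl | ht)
    · exact ⟨x1, by simp [hx1]⟩
    · have ht' : t = {0} := ht
      exact ⟨x0, by simp [ht']⟩
  · rintro ⟨e⟩
    obtain ⟨p, hp⟩ := antichain (T := Set.range g) x0 g g.injective (fun i => ⟨i, rfl⟩)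
    obtain ⟨q, hq⟩ := transfer e p hp
    exact (not_countable_iff.mpr hI) (ccc q hq)

end Pool.Agent.Results.MP_01c350_lc.NotEquivalent
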